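import Pool.Agent.H125B.Defs

open Filter Topology Set TopologicalSpace
open scoped NNReal InnerProductSpace

namespace Pool.Agent.H125B

universe u

variable {H : Type u} [NormedAddCommGroup H] [InnerProductSpace ℂ H]

/-- the ambient space: families of contractions with continuous matrix coefficients -/
def W (x : ℕ → H) : Type u :=
  {F : ℝ≥0 → H →L[ℂ] H // (∀ t, ‖F t‖ ≤ 1) ∧ ∀ i j, Continuous fun t => ⟪x j, F t (x i)⟫_ℂ}

/-- matrix coefficients -/
noncomputable def Phi (x : ℕ → H) (F : W x) : ℕ × ℕ → C(ℝ≥0, ℂ) :=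
  fun p => ⟨fun t => ⟪x p.2, F.1 t (x p.1)⟫_ℂ, F.2.2 p.1 p.2⟩

noncomputable instance (x : ℕ → H) : TopologicalSpace (W x) := TopologicalSpace.induced (Phi x) inferInstance

theorem Phi_cont (x : ℕ → H) : Continuous (Phi x) := continuous_induced_dom

theorem approx_bound {x : ℕ → H} (hx : DenseRange x) (a b : H) (ε : ℝ) (hε : 0 < ε) :
    ∃ i j : ℕ, ∀ A : H →L[ℂ] H, ‖A‖ ≤ 1 → dist (⟪a, A b⟫_ℂ) (⟪x j, A (x i)⟫_ℂ) < ε := by
  obtain ⟨i, hi⟩ := hx.exists_dist_lt b (show 0 < min 1 (ε / (2 * (‖a‖ + 1))) by positivity)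
  obtain ⟨j, hj⟩ := hx.exists_dist_lt a (show 0 < ε / (2 * (‖b‖ + 2)) by positivity)
  refine ⟨i, j, fun A hA => ?_⟩
  have hi1 : dist b (x i) < 1 := lt_of_lt_of_le hi (min_le_left _ _)
  have hi2 : dist b (x i) < ε / (2 * (‖a‖ + 1)) := lt_of_lt_of_le hi (min_le_right _ _)
  have hxi : ‖x i‖ ≤ ‖b‖ + 1 := by
    have h1 : ‖x i‖ ≤ ‖b‖ + ‖x i - b‖ := by
      have := norm_add_le b (x i - b)
      simpa using this
    rw [dist_comm, dist_eq_norm] at hi1
    linarith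
  have e : ⟪a, A b⟫_ℂ - ⟪x j, A (x i)⟫_ℂ = ⟪a, A (b - x i)⟫_ℂ + ⟪a - x j, A (x i)⟫_ℂ := by
    rw [map_sub, inner_sub_right, inner_sub_left]
    ring
  have hAle : ∀ v, ‖A v‖ ≤ ‖v‖ := fun v => by
    have := A.le_opNorm v
    calc ‖A v‖ ≤ ‖A‖ * ‖v‖ := this
      _ ≤ 1 * ‖v‖ := by gcongr
      _ = ‖v‖ := one_mul _
  have h1 : ‖⟪a, A (b - x i)⟫_ℂ‖ ≤ ‖a‖ * ‖b - x i‖ :=
    (norm_inner_le_norm _ _).trans (by gcongr; exact hAle _)
  have h2 : ‖⟪a - x j, A (x i)⟫_ℂ‖ ≤ ‖a - x j‖ * ‖x i‖ :=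
    (norm_inner_le_norm _ _).trans (by gcongr; exact hAle _)
  rw [dist_eq_norm] at hi2 hj
  rw [dist_eq_norm, e]
  have h3 : ‖a‖ * ‖b - x i‖ ≤ ε / 2 := by
    calc ‖a‖ * ‖b - x i‖ ≤ (‖a‖ + 1) * (ε / (2 * (‖a‖ + 1))) := by
          gcongr
          linarith
      _ = ε / 2 := by field_simp
  have h4 : ‖a - x j‖ * ‖x i‖ < ε / 2 := by
    calc ‖a - x j‖ * ‖x i‖ ≤ (ε / (2 * (‖b‖ + 2))) * (‖b‖ + 1) := by
          gcongr
      _ < (ε / (2 * (‖b‖ + 2))) * (‖b‖ + 2) := by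
          apply mul_lt_mul_of_pos_left (by linarith) (by positivity)
      _ = ε / 2 := by field_simp
  calc ‖⟪a, A (b - x i)⟫_ℂ + ⟪a - x j, A (x i)⟫_ℂ‖
      ≤ ‖⟪a, A (b - x i)⟫_ℂ‖ + ‖⟪a - x j, A (x i)⟫_ℂ‖ := norm_add_le _ _
    _ < ε := by linarith

/-- matrix coefficients are continuous functions of the family -/
theorem ev_cont {x : ℕ → H} (hx : DenseRange x) (t : ℝ≥0) (a b : H) :
    Continuous fun F : W x => ⟪a, F.1 t b⟫_ℂ := by
  refine continuous_of_uniform_approx_of_continuous fun u hu => ?_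
  obtain ⟨ε, hε, hεu⟩ := Metric.mem_uniformity_dist.1 hu
  obtain ⟨i, j, hij⟩ := approx_bound hx a b ε hε
  refine ⟨fun F : W x => ⟪x j, F.1 t (x i)⟫_ℂ, ?_, fun F => hεu (hij (F.1 t) (F.2.1 t))⟩
  have h1 : Continuous fun F : W x => Phi x F (i, j) t :=
    (continuous_eval_const t).comp ((continuous_apply (i, j)).comp (Phi_cont x))
  exact h1

/-- matrix coefficients are continuous in time -/
theorem t_cont {x : ℕ → H} (hx : DenseRange x) (F : W x) (a b : H) :
    Continuous fun t : ℝ≥0 => ⟪a, F.1 t b⟫_ℂ := by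
  refine continuous_of_uniform_approx_of_continuous fun u hu => ?_
  obtain ⟨ε, hε, hεu⟩ := Metric.mem_uniformity_dist.1 hu
  obtain ⟨i, j, hij⟩ := approx_bound hx a b ε hε
  exact ⟨fun t => ⟪x j, F.1 t (x i)⟫_ℂ, F.2.2 i j, fun t => hεu (hij (F.1 t) (F.2.1 t))⟩

/-- an operator is determined by its matrix coefficients -/
theorem ext_coeff {x : ℕ → H} (hx : DenseRange x) {A B : H →L[ℂ] H}
    (h : ∀ i j, ⟪x j, A (x i)⟫_ℂ = ⟪x j, B (x i)⟫_ℂ) : A = B := by
  have h1 : ∀ i, A (x i) = B (x i) := by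
    intro i
    have h2 : (fun a : H => ⟪a, A (x i)⟫_ℂ) = fun a : H => ⟪a, B (x i)⟫_ℂ :=
      hx.equalizer (by fun_prop) (by fun_prop) (by funext j; exact h i j)
    exact ext_inner_left ℂ fun v => congrFun h2 v
  have h3 : (A : H → H) = B := hx.equalizer A.continuous B.continuous (by funext i; exact h1 i)
  exact DFunLike.coe_injective h3

theorem Phi_inj {x : ℕ → H} (hx : DenseRange x) : Function.Injective (Phi x) := by
  intro F G h
  apply Subtype.ext
  funext t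
  apply ext_coeff hx
  intro i j
  have := congrFun h (i, j)
  exact DFunLike.congr_fun this t

variable [CompleteSpace H]

/-- a bounded sesquilinear form comes from a contraction -/
theorem exists_op (L : H → H → ℂ) (h1 : ∀ a a' b, L (a + a') b = L a b + L a' b)
    (h2 : ∀ (c : ℂ) a b, L (c • a) b = (starRingEnd ℂ) c * L a b)
    (h3 : ∀ a b b', L a (b + b') = L a b + L a b')
    (h4 : ∀ (c : ℂ) a b, L a (c • b) = c * L a b)
    (h5 : ∀ a b, ‖L a b‖ ≤ ‖a‖ * ‖b‖) :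
    ∃ A : H →L[ℂ] H, ‖A‖ ≤ 1 ∧ ∀ a b, ⟪a, A b⟫_ℂ = L a b := by
  let B : H →L⋆[ℂ] H →L[ℂ] ℂ := LinearMap.mkContinuous₂
    (LinearMap.mk₂'ₛₗ (starRingEnd ℂ) (RingHom.id ℂ) L h1 (fun c a b => by simpa using h2 c a b) h3
      (fun c a b => by simpa using h4 c a b)) 1 (fun a b => by simpa using h5 a b)
  have hB : ∀ a b, B a b = L a b := fun a b => rfl
  let G := InnerProductSpace.continuousLinearMapOfBilin B
  have hG : ∀ a b, ⟪G a, b⟫_ℂ = L a b := fun a b => by
    rw [← hB]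
    exact InnerProductSpace.continuousLinearMapOfBilin_apply B a b
  refine ⟨ContinuousLinearMap.adjoint G, ?_, fun a b => ?_⟩
  · refine ContinuousLinearMap.opNorm_le_bound _ zero_le_one fun b => ?_
    rw [one_mul]
    have e : ⟪(ContinuousLinearMap.adjoint G) b, (ContinuousLinearMap.adjoint G) b⟫_ℂ =
        L ((ContinuousLinearMap.adjoint G) b) b := by
      rw [ContinuousLinearMap.adjoint_inner_right, hG]
    have h6 : ‖(ContinuousLinearMap.adjoint G) b‖ * ‖(ContinuousLinearMap.adjoint G) b‖ ≤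
        ‖(ContinuousLinearMap.adjoint G) b‖ * ‖b‖ := by
      have h7 := h5 ((ContinuousLinearMap.adjoint G) b) b
      rw [← e, inner_self_eq_norm_sq_to_K] at h7
      simpa [sq] using h7
    by_cases h0 : ‖(ContinuousLinearMap.adjoint G) b‖ = 0
    · rw [h0]; exact norm_nonneg _
    · exact le_of_mul_le_mul_left h6 (lt_of_le_of_ne (norm_nonneg _) (Ne.symm h0))
  · rw [ContinuousLinearMap.adjoint_inner_right, hG]

theorem Phi_closed {x : ℕ → H} : IsClosed (range (Phi x)) := by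
  classical
  rw [isClosed_iff_ultrafilter]
  intro y u huy hru
  let g : (ℕ × ℕ → C(ℝ≥0, ℂ)) → ℝ≥0 → H →L[ℂ] H :=
    fun z => if h : z ∈ range (Phi x) then h.choose.1 else 0
  have hg1 : ∀ z t, ‖g z t‖ ≤ 1 := by
    intro z t
    by_cases h : z ∈ range (Phi x)
    · simp only [g, dif_pos h]
      exact h.choose.2.1 t
    · simp only [g, dif_neg h]
      simp
  have hg2 : ∀ z ∈ range (Phi x), ∀ p : ℕ × ℕ, ∀ t, ⟪x p.2, g z t (x p.1)⟫_ℂ = z p t := by
    intro z hz p t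
    simp only [g, dif_pos hz]
    have := hz.choose_spec
    exact DFunLike.congr_fun (congrFun this p) t
  have hlim : ∀ (t : ℝ≥0) (a b : H), ∃ l ∈ Metric.closedBall (0:ℂ) (‖a‖ * ‖b‖),
      Tendsto (fun z => ⟪a, g z t b⟫_ℂ) u (𝓝 l) := by
    intro t a b
    have hmem : ∀ z, ⟪a, g z t b⟫_ℂ ∈ Metric.closedBall (0:ℂ) (‖a‖ * ‖b‖) := by
      intro z
      rw [mem_closedBall_zero_iff]
      refine (norm_inner_le_norm _ _).trans ?_
      gcongr
      calc ‖g z t b‖ ≤ ‖g z t‖ * ‖b‖ := (g z t).le_opNorm b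
        _ ≤ 1 * ‖b‖ := by gcongr; exact hg1 z t
        _ = ‖b‖ := one_mul _
    have := (isCompact_closedBall (0:ℂ) (‖a‖ * ‖b‖)).ultrafilter_le_nhds
      (u.map fun z => ⟪a, g z t b⟫_ℂ) (by
        rw [le_principal_iff]
        exact Filter.mem_map.2 (Filter.univ_mem' hmem))
    obtain ⟨l, hl, hle⟩ := this
    exact ⟨l, hl, hle⟩
  choose L hL1 hL2 using hlim
  have hop : ∀ t : ℝ≥0, ∃ A : H →L[ℂ] H, ‖A‖ ≤ 1 ∧ ∀ a b, ⟪a, A b⟫_ℂ = L t a b := by
    intro t
    refine exists_op (L t) ?_ ?_ ?_ ?_ ?_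
    · intro a a' b
      refine tendsto_nhds_unique (hL2 t (a + a') b) ?_
      simp only [inner_add_left]
      exact (hL2 t a b).add (hL2 t a' b)
    · intro c a b
      refine tendsto_nhds_unique (hL2 t (c • a) b) ?_
      simp only [inner_smul_left]
      exact (hL2 t a b).const_mul _
    · intro a b b'
      refine tendsto_nhds_unique (hL2 t a (b + b')) ?_
      simp only [map_add, inner_add_right]
      exact (hL2 t a b).add (hL2 t a b')
    · intro c a b
      refine tendsto_nhds_unique (hL2 t a (c • b)) ?_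
      simp only [map_smul, inner_smul_right]
      exact (hL2 t a b).const_mul _
    · intro a b
      simpa using hL1 t a b
  choose F hF1 hF2 using hop
  have hval : ∀ (p : ℕ × ℕ) (t : ℝ≥0), ⟪x p.2, F t (x p.1)⟫_ℂ = y p t := by
    intro p t
    rw [hF2]
    refine tendsto_nhds_unique (hL2 t (x p.2) (x p.1)) ?_
    have h1 : Tendsto (fun z : ℕ × ℕ → C(ℝ≥0, ℂ) => z p t) u (𝓝 (y p t)) := by
      have hc : Continuous fun z : ℕ × ℕ → C(ℝ≥0, ℂ) => z p t :=
        (continuous_eval_const t).comp (continuous_apply p)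
      exact (hc.tendsto y).mono_left huy
    refine h1.congr' ?_
    filter_upwards [hru] with z hz
    exact (hg2 z hz p t).symm
  refine ⟨⟨F, hF1, fun i j => ?_⟩, ?_⟩
  · have : (fun t => ⟪x j, F t (x i)⟫_ℂ) = fun t => y (i, j) t := by
      funext t
      exact hval (i, j) t
    rw [this]
    exact (y (i, j)).continuous
  · funext p
    ext t
    exact hval p t

theorem Phi_closedEmb {x : ℕ → H} (hx : DenseRange x) : IsClosedEmbedding (Phi x) :=
  ⟨⟨⟨rfl⟩, Phi_inj hx⟩, Phi_closed⟩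

theorem W_complete {x : ℕ → H} (hx : DenseRange x) : IsCompletelyPseudoMetrizableSpace (W x) :=
  (Phi_closedEmb hx).IsCompletelyPseudoMetrizableSpace

end Pool.Agent.H125B
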