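import Mathlib

open Filter Topology Set TopologicalSpace
open scoped NNReal InnerProductSpace

namespace Pool.Agent.H125B

universe u

variable (H : Type u) [NormedAddCommGroup H] [InnerProductSpace ℂ H]

/-- A contraction `C₀`-semigroup on `H`: bounded operators `T t`, `t ≥ 0`, with `T 0 = I`,
`T (s + t) = T s T t`, norm-continuous orbits and `‖T t‖ ≤ 1`. -/
structure CSG where
  /-- the operators of the semigroup -/
  T : ℝ≥0 → H →L[ℂ] H
  zero' : T 0 = ContinuousLinearMap.id ℂ H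
  add' : ∀ s t, T (s + t) = (T s).comp (T t)
  cont' : ∀ v, Continuous fun t => T t v
  contr' : ∀ t, ‖T t‖ ≤ 1

variable {H}

/-- The number `sup_{0 ≤ t ≤ n} |⟨(T(t) - S(t)) x_i, x_j⟩|`. -/
noncomputable def supDiff (x : ℕ → H) (T S : CSG H) (i j n : ℕ) : ℝ :=
  ⨆ t : Set.Icc (0 : ℝ≥0) (n : ℝ≥0), ‖⟪x j, (T.T t - S.T t) (x i)⟫_ℂ‖

/-- The distance
`d(T,S) = ∑_{n,i,j ≥ 1} 2^{-(i+j+n)} sup_{0≤t≤n} |⟨(T(t)-S(t)) x_i, x_j⟩| / (‖x_i‖ ‖x_j‖)`
attached to a sequence `x_1, x_2, …`, which is written `x 0, x 1, …` here; so the sum over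
`i, j, n ≥ 1` is the sum over all triples of natural numbers, with `i + 1, j + 1, n + 1` in place
of `i, j, n`. -/
noncomputable def cdist (x : ℕ → H) (T S : CSG H) : ℝ :=
  ∑' p : ℕ × ℕ × ℕ, (2 : ℝ)⁻¹ ^ ((p.1 + 1) + (p.2.1 + 1) + (p.2.2 + 1)) *
    (supDiff x T S p.1 p.2.1 (p.2.2 + 1) / (‖x p.1‖ * ‖x p.2.1‖))

end Pool.Agent.H125B
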