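import Pool.Agent.H125B.Met

open Filter Topology Set TopologicalSpace
open scoped NNReal InnerProductSpace

namespace Pool.Agent.H125B

universe u

variable {H : Type u} [NormedAddCommGroup H] [InnerProductSpace ℂ H]

/-- weak continuity at `0` of a contraction semigroup gives strong continuity -/
theorem strong_cont (F : ℝ≥0 → H →L[ℂ] H) (h0 : F 0 = ContinuousLinearMap.id ℂ H)
    (hadd : ∀ s t, F (s + t) = (F s).comp (F t)) (hc : ∀ t, ‖F t‖ ≤ 1)
    (hw : ∀ v, Continuous fun t => ⟪v, F t v⟫_ℂ) (v : H) : Continuous fun t => F t v := by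
  have hle : ∀ t w, ‖F t w‖ ≤ ‖w‖ := fun t w => by
    calc ‖F t w‖ ≤ ‖F t‖ * ‖w‖ := (F t).le_opNorm w
      _ ≤ 1 * ‖w‖ := by gcongr; exact hc t
      _ = ‖w‖ := one_mul _
  have h1 : ∀ t, ‖F t v - v‖ ^ 2 ≤ 2 * ‖v‖ ^ 2 - 2 * (⟪v, F t v⟫_ℂ).re := by
    intro t
    have h2 := @norm_sub_sq ℂ H _ _ _ (F t v) v
    have h3 : RCLike.re ⟪F t v, v⟫_ℂ = (⟪v, F t v⟫_ℂ).re := by
      rw [← inner_conj_symm, RCLike.conj_re]
      rfl
    rw [h3] at h2
    have h4 : ‖F t v‖ ^ 2 ≤ ‖v‖ ^ 2 := by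
      have := hle t v
      gcongr
    linarith
  have h2 : Tendsto (fun t : ℝ≥0 => 2 * ‖v‖ ^ 2 - 2 * (⟪v, F t v⟫_ℂ).re) (𝓝 0) (𝓝 0) := by
    have h3 : Continuous fun t : ℝ≥0 => 2 * ‖v‖ ^ 2 - 2 * (⟪v, F t v⟫_ℂ).re :=
      continuous_const.sub (continuous_const.mul (Complex.continuous_re.comp (hw v)))
    have h4 := h3.tendsto 0
    have h5 : 2 * ‖v‖ ^ 2 - 2 * (⟪v, F 0 v⟫_ℂ).re = 0 := by
      rw [h0]
      have : ⟪v, (ContinuousLinearMap.id ℂ H) v⟫_ℂ = ((‖v‖ ^ 2 : ℝ) : ℂ) := by
        simpa using inner_self_eq_norm_sq_to_K (𝕜 := ℂ) v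
      rw [this, Complex.ofReal_re]
      ring
    rw [h5] at h4
    exact h4
  have h3 : Tendsto (fun t : ℝ≥0 => ‖F t v - v‖ ^ 2) (𝓝 0) (𝓝 0) :=
    squeeze_zero (fun t => by positivity) h1 h2
  have h4 : Tendsto (fun t : ℝ≥0 => ‖F t v - v‖) (𝓝 0) (𝓝 0) := by
    have := h3.sqrt
    simpa using this
  have h5 : ∀ s t : ℝ≥0, s ≤ t → ‖F s v - F t v‖ ≤ ‖F (t - s) v - v‖ := by
    intro s t hst
    have e : F t v = F s (F (t - s) v) := by
      have := hadd s (t - s)
      rw [add_tsub_cancel_of_le hst] at this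
      rw [this]
      rfl
    rw [e, ← map_sub, ← norm_neg, ← map_neg, neg_sub]
    exact hle _ _
  rw [Metric.continuous_iff]
  intro t ε hε
  obtain ⟨δ, hδ, hδ2⟩ := Metric.tendsto_nhds_nhds.1 h4 ε hε
  refine ⟨δ, hδ, fun s hs => ?_⟩
  rw [dist_eq_norm]
  rcases le_total s t with h | h
  · refine lt_of_le_of_lt (h5 s t h) ?_
    have h6 : dist (t - s) 0 < δ := by
      rw [NNReal.dist_eq] at hs ⊢
      rw [NNReal.coe_sub h, NNReal.coe_zero, sub_zero, abs_sub_comm]
      exact hs
    have h7 := hδ2 h6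
    rw [Real.dist_eq, sub_zero, abs_of_nonneg (norm_nonneg _)] at h7
    exact h7
  · rw [norm_sub_rev]
    refine lt_of_le_of_lt (h5 t s h) ?_
    have h6 : dist (s - t) 0 < δ := by
      rw [NNReal.dist_eq] at hs ⊢
      rw [NNReal.coe_sub h, NNReal.coe_zero, sub_zero]
      exact hs
    have h7 := hδ2 h6
    rw [Real.dist_eq, sub_zero, abs_of_nonneg (norm_nonneg _)] at h7
    exact h7

theorem rr_cont_met {x : ℕ → H} (hx0 : ∀ i, x i ≠ 0) (hx : DenseRange x) (i j n : ℕ) :
    @Continuous (CSG H) C(Icc (0 : ℝ≥0) ((n + 1 : ℕ) : ℝ≥0), ℂ)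
      (metCSG x hx0 hx).toUniformSpace.toTopologicalSpace _ (rr x i j (n + 1)) := by
  let := metCSG x hx0 hx
  rw [continuous_iff_continuousAt]
  intro T
  unfold ContinuousAt
  rw [tendsto_iff_dist_tendsto_zero]
  have h3 : 0 < ‖x i‖ * ‖x j‖ := mul_pos (norm_pos_iff.2 (hx0 _)) (norm_pos_iff.2 (hx0 _))
  have h4 := wt_pos (i, j, n)
  have hle : ∀ S : CSG H, dist (rr x i j (n + 1) S) (rr x i j (n + 1) T) ≤
      (‖x i‖ * ‖x j‖ / wt (i, j, n)) * dist S T := by
    intro S
    have h1 := tm_le_cdist hx0 S T (i, j, n)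
    unfold tm at h1
    rw [supDiff_eq] at h1
    have h2 : dist S T = cdist x S T := rfl
    rw [h2]
    calc dist (rr x i j (n + 1) S) (rr x i j (n + 1) T)
        = (‖x i‖ * ‖x j‖ / wt (i, j, n)) * (wt (i, j, n) *
          (dist (rr x i j (n + 1) S) (rr x i j (n + 1) T) / (‖x i‖ * ‖x j‖))) := by
            have h5 := h3.ne'
            have h6 := h4.ne'
            generalize ‖x i‖ * ‖x j‖ = c at h5 ⊢
            generalize wt (i, j, n) = w at h6 ⊢
            field_simp
      _ ≤ (‖x i‖ * ‖x j‖ / wt (i, j, n)) * cdist x S T :=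
            mul_le_mul_of_nonneg_left h1 (by positivity)
  refine squeeze_zero (fun S => dist_nonneg) hle ?_
  have h5 : Tendsto (fun S : CSG H => dist S T) (𝓝 T) (𝓝 0) := by
    rw [← tendsto_iff_dist_tendsto_zero]
    exact tendsto_id
  simpa using h5.const_mul (‖x i‖ * ‖x j‖ / wt (i, j, n))

theorem toW_cont_met {x : ℕ → H} (hx0 : ∀ i, x i ≠ 0) (hx : DenseRange x) :
    @Continuous (CSG H) (W x) (metCSG x hx0 hx).toUniformSpace.toTopologicalSpace _ (toW x) := by
  let := metCSG x hx0 hx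
  refine continuous_induced_rng.2 (continuous_pi fun p => ?_)
  rw [continuous_iff_continuousAt]
  intro T
  unfold ContinuousAt
  rw [ContinuousMap.tendsto_compactOpen_iff_forall]
  intro K hK
  obtain ⟨b, hb⟩ := hK.bddAbove
  obtain ⟨n, hn⟩ := exists_nat_ge b
  have hsub : K ⊆ Icc (0 : ℝ≥0) ((n + 1 : ℕ) : ℝ≥0) := fun t ht =>
    ⟨zero_le, (hb ht).trans (hn.trans (by exact_mod_cast Nat.le_succ n))⟩
  have h1 := (rr_cont_met hx0 hx p.1 p.2 n)
  have h2 : Continuous fun f : C(Icc (0 : ℝ≥0) ((n + 1 : ℕ) : ℝ≥0), ℂ) =>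
      f.comp (⟨Set.inclusion hsub, continuous_inclusion hsub⟩ : C(K, Icc (0 : ℝ≥0) ((n + 1 : ℕ) : ℝ≥0))) :=
    ContinuousMap.continuous_precomp _
  exact (h2.comp h1).tendsto T

/-- the induced topology and the metric topology agree -/
theorem top_eq {x : ℕ → H} (hx0 : ∀ i, x i ≠ 0) (hx : DenseRange x) :
    (metCSG x hx0 hx).toUniformSpace.toTopologicalSpace =
      TopologicalSpace.induced (toW x) inferInstance := by
  apply le_antisymm
  · exact continuous_iff_le_induced.1 (toW_cont_met hx0 hx)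
  · rw [← continuous_id_iff_le]
    let m := metCSG x hx0 hx
    have hcd : ∀ T : CSG H, @Continuous (CSG H) ℝ (TopologicalSpace.induced (toW x) inferInstance) _
        (fun S => cdist x S T) := by
      intro T
      let : TopologicalSpace (CSG H) := TopologicalSpace.induced (toW x) inferInstance
      have hto : Continuous (toW x) := continuous_induced_dom
      refine continuous_tsum (f := fun p S => tm x S T p) (fun p => ?_) (wt_summable.mul_left 2)
        (fun p S => ?_)
      · unfold tm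
        simp only [supDiff_eq]
        have hr : Continuous fun S : CSG H => rr x p.1 p.2.1 (p.2.2 + 1) S := by
          have h1 : Continuous fun S : CSG H => Phi x (toW x S) (p.1, p.2.1) :=
            (continuous_apply (p.1, p.2.1)).comp ((Phi_cont x).comp hto)
          exact (ContinuousMap.continuous_restrict _).comp h1
        exact continuous_const.mul ((hr.dist continuous_const).div_const _)
      · rw [Real.norm_of_nonneg (tm_nonneg x S T p)]
        exact tm_le hx0 S T p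
    rw [@continuous_iff_continuousAt (CSG H) (CSG H) (TopologicalSpace.induced (toW x) inferInstance)
      m.toUniformSpace.toTopologicalSpace]
    intro T
    unfold ContinuousAt
    rw [tendsto_iff_dist_tendsto_zero]
    have h1 := @Continuous.tendsto (CSG H) ℝ (TopologicalSpace.induced (toW x) inferInstance) _ _ (hcd T) T
    have h2 : cdist x T T = 0 := (metCSG x hx0 hx).dist_self T
    rw [h2] at h1
    exact h1

theorem range_toW {x : ℕ → H} (hx : DenseRange x) : range (toW x) = SG x := by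
  ext F
  constructor
  · rintro ⟨T, rfl⟩
    exact ⟨T.zero', T.add'⟩
  · rintro ⟨h1, h2⟩
    exact ⟨⟨F.1, h1, h2, strong_cont F.1 h1 h2 F.2.1 fun v => t_cont hx F v v, F.2.1⟩,
      Subtype.ext rfl⟩

variable [CompleteSpace H]

/-- **The space of contraction `C₀`-semigroups is a Baire space.** -/
theorem main (x : ℕ → H) (hx0 : ∀ i, x i ≠ 0) (hx : DenseRange x) :
    ∃ m : MetricSpace (CSG H), (∀ T S : CSG H, m.dist T S = cdist x T S) ∧
      @BaireSpace (CSG H) m.toUniformSpace.toTopologicalSpace := by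
  refine ⟨metCSG x hx0 hx, fun T S => rfl, ?_⟩
  rw [top_eq hx0 hx]
  let : TopologicalSpace (CSG H) := TopologicalSpace.induced (toW x) inferInstance
  have hemb : IsEmbedding (toW x) := ⟨⟨rfl⟩, toW_inj x⟩
  have hB : BaireSpace (range (toW x)) := by
    rw [range_toW hx]
    exact SG_baire hx
  exact hemb.toHomeomorph.symm.baireSpace

end Pool.Agent.H125B
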