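import Pool.Agent.H125B.Amb

open Filter Topology Set TopologicalSpace
open scoped NNReal InnerProductSpace

namespace Pool.Agent.H125B

universe u

/-- the set where a pointwise limit of continuous functions equals a continuous function is a
`G_δ` set -/
theorem gdelta_lim {X : Type*} [TopologicalSpace X] (f : ℕ → X → ℂ) (F g : X → ℂ)
    (hf : ∀ n, Continuous (f n)) (hg : Continuous g)
    (hlim : ∀ z, Tendsto (fun n => f n z) atTop (𝓝 (F z))) : IsGδ {z | F z = g z} := by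
  have h : {z | F z = g z} =
      ⋂ m : ℕ, ⋂ M : ℕ, ⋃ n : ℕ, {z | M ≤ n ∧ dist (f n z) (g z) < 1 / ((m : ℝ) + 1)} := by
    ext z
    simp only [mem_ofPred_eq, mem_iInter, mem_iUnion]
    constructor
    · intro h m M
      have h1 := Metric.tendsto_atTop.1 (hlim z) (1 / ((m : ℝ) + 1)) (by positivity)
      obtain ⟨N, hN⟩ := h1
      refine ⟨max M N, le_max_left _ _, ?_⟩
      rw [← h]
      exact hN _ (le_max_right _ _)
    · intro h
      have hsub : ∀ m : ℕ, dist (F z) (g z) ≤ 2 * (1 / ((m : ℝ) + 1)) := by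
        intro m
        obtain ⟨N, hN⟩ := Metric.tendsto_atTop.1 (hlim z) (1 / ((m : ℝ) + 1)) (by positivity)
        obtain ⟨n, hn1, hn2⟩ := h m N
        have h2 := hN n hn1
        have h3 := dist_triangle (F z) (f n z) (g z)
        rw [dist_comm] at h2
        linarith
      have hlim2 : Tendsto (fun m : ℕ => 2 * (1 / ((m : ℝ) + 1))) atTop (𝓝 0) := by
        have := (tendsto_one_div_add_atTop_nhds_zero_nat (𝕜 := ℝ)).const_mul 2
        simpa using this
      have h0 : dist (F z) (g z) ≤ 0 := ge_of_tendsto' hlim2 hsub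
      exact dist_le_zero.1 h0
  rw [h]
  refine IsGδ.iInter fun m => IsGδ.iInter fun M => IsOpen.isGδ ?_
  refine isOpen_iUnion fun n => ?_
  by_cases hMn : M ≤ n
  · simp only [hMn, true_and]
    exact isOpen_lt ((hf n).dist hg) continuous_const
  · simp [hMn]

variable {H : Type u} [NormedAddCommGroup H] [InnerProductSpace ℂ H] [CompleteSpace H]

omit [CompleteSpace H] in
theorem countable_hilbertBasis {x : ℕ → H} (hx : DenseRange x) {ι : Type*}
    (b : HilbertBasis ι ℂ H) : Countable ι := by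
  have : SeparableSpace H := ⟨range x, countable_range x, hx⟩
  have ho := b.orthonormal
  have hd : Pairwise fun i j => (1:ℝ) ≤ dist (b i) (b j) := by
    intro i j hij
    rw [dist_eq_norm]
    have h1 : ‖b i - b j‖ ^ 2 = 2 := by
      rw [@norm_sub_sq ℂ, ho.2 hij, ho.1, ho.1]
      norm_num
    have h2 : 0 ≤ ‖b i - b j‖ := norm_nonneg _
    nlinarith
  have h3 : (univ : Set ι).PairwiseDisjoint fun i => Metric.ball (b i) (1 / 2) := by
    intro i _ j _ hij
    refine Metric.ball_disjoint_ball ?_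
    have := hd hij
    linarith
  have h4 := h3.countable_of_isOpen (fun i _ => Metric.isOpen_ball)
    (fun i _ => Metric.nonempty_ball.2 (by norm_num))
  exact countable_univ_iff.1 h4

/-- the law at one pair of times, one matrix coefficient: a `G_δ` condition -/
theorem gdelta_law {x : ℕ → H} (hx : DenseRange x) (s t : ℝ≥0) (a b : H) :
    IsGδ {F : W x | ⟪a, F.1 s (F.1 t b)⟫_ℂ = ⟪a, F.1 (s + t) b⟫_ℂ} := by
  classical
  obtain ⟨w, e, -⟩ := exists_hilbertBasis ℂ H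
  have : Countable w := countable_hilbertBasis hx e
  obtain ⟨K, hK⟩ := exists_seq_tendsto (atTop : Filter (Finset w))
  refine gdelta_lim (fun n (F : W x) => ∑ i ∈ K n, ⟪a, F.1 s (e i)⟫_ℂ * ⟪e i, F.1 t b⟫_ℂ) _ _
    (fun n => ?_) (ev_cont hx (s + t) a b) (fun F => ?_)
  · exact continuous_finsetSum _ fun i _ => (ev_cont hx s a (e i)).mul (ev_cont hx t (e i) b)
  · have h1 := e.hasSum_inner_mul_inner (ContinuousLinearMap.adjoint (F.1 s) a) (F.1 t b)
    simp only [ContinuousLinearMap.adjoint_inner_left] at h1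
    have h2 : Tendsto (fun S : Finset w => ∑ i ∈ S, ⟪a, F.1 s (e i)⟫_ℂ * ⟪e i, F.1 t b⟫_ℂ) atTop
        (𝓝 (⟪a, F.1 s (F.1 t b)⟫_ℂ)) := by
      simpa [HasSum, SummationFilter.unconditional_filter] using h1
    exact h2.comp hK

/-- the semigroups inside the ambient space -/
def SG (x : ℕ → H) : Set (W x) :=
  {F | F.1 0 = ContinuousLinearMap.id ℂ H ∧ ∀ s t, F.1 (s + t) = (F.1 s).comp (F.1 t)}

theorem law_of_dense {x : ℕ → H} (hx : DenseRange x) (F : W x)
    (h : ∀ m n i j : ℕ, ⟪x j, F.1 (denseSeq ℝ≥0 m) (F.1 (denseSeq ℝ≥0 n) (x i))⟫_ℂ =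
      ⟪x j, F.1 (denseSeq ℝ≥0 m + denseSeq ℝ≥0 n) (x i)⟫_ℂ) :
    ∀ s t, F.1 (s + t) = (F.1 s).comp (F.1 t) := by
  have h1 : ∀ m n : ℕ, F.1 (denseSeq ℝ≥0 m + denseSeq ℝ≥0 n) =
      (F.1 (denseSeq ℝ≥0 m)).comp (F.1 (denseSeq ℝ≥0 n)) := by
    intro m n
    apply ext_coeff hx
    intro i j
    exact (h m n i j).symm
  have h2 : ∀ (s : ℝ≥0) (n : ℕ), F.1 (s + denseSeq ℝ≥0 n) =
      (F.1 s).comp (F.1 (denseSeq ℝ≥0 n)) := by
    intro s n
    apply ext_coeff hx
    intro i j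
    have h3 : (fun s : ℝ≥0 => ⟪x j, F.1 (s + denseSeq ℝ≥0 n) (x i)⟫_ℂ) =
        fun s : ℝ≥0 => ⟪x j, F.1 s (F.1 (denseSeq ℝ≥0 n) (x i))⟫_ℂ := by
      refine (denseRange_denseSeq ℝ≥0).equalizer ?_ ?_ ?_
      · exact (t_cont hx F (x j) (x i)).comp (continuous_id.add continuous_const)
      · exact t_cont hx F (x j) (F.1 (denseSeq ℝ≥0 n) (x i))
      · funext m
        simp only [Function.comp]
        rw [h1]
        rfl
    exact congrFun h3 s
  intro s t
  apply ext_coeff hx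
  intro i j
  have h3 : (fun t : ℝ≥0 => ⟪x j, F.1 (s + t) (x i)⟫_ℂ) =
      fun t : ℝ≥0 => ⟪ContinuousLinearMap.adjoint (F.1 s) (x j), F.1 t (x i)⟫_ℂ := by
    refine (denseRange_denseSeq ℝ≥0).equalizer ?_ ?_ ?_
    · exact (t_cont hx F (x j) (x i)).comp (continuous_const.add continuous_id)
    · exact t_cont hx F _ (x i)
    · funext n
      simp only [Function.comp]
      rw [h2, ContinuousLinearMap.adjoint_inner_left]
      rfl
  have h4 := congrFun h3 t
  simp only [ContinuousLinearMap.adjoint_inner_left] at h4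
  exact h4

theorem SG_gdelta {x : ℕ → H} (hx : DenseRange x) : IsGδ (SG x) := by
  have h : SG x = {F : W x | ∀ i j, ⟪x j, F.1 0 (x i)⟫_ℂ = ⟪x j, x i⟫_ℂ} ∩
      ⋂ m : ℕ, ⋂ n : ℕ, ⋂ i : ℕ, ⋂ j : ℕ,
        {F : W x | ⟪x j, F.1 (denseSeq ℝ≥0 m) (F.1 (denseSeq ℝ≥0 n) (x i))⟫_ℂ =
          ⟪x j, F.1 (denseSeq ℝ≥0 m + denseSeq ℝ≥0 n) (x i)⟫_ℂ} := by
    ext F
    simp only [SG, mem_inter_iff, mem_ofPred_eq, mem_iInter]
    constructor
    · rintro ⟨h1, h2⟩
      refine ⟨fun i j => by rw [h1]; rfl, fun m n i j => by rw [h2]; rfl⟩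
    · rintro ⟨h1, h2⟩
      exact ⟨ext_coeff hx fun i j => h1 i j, law_of_dense hx F h2⟩
  rw [h]
  refine IsGδ.inter ?_ ?_
  · have h1 : {F : W x | ∀ i j, ⟪x j, F.1 0 (x i)⟫_ℂ = ⟪x j, x i⟫_ℂ} =
        ⋂ i : ℕ, ⋂ j : ℕ, {F : W x | ⟪x j, F.1 0 (x i)⟫_ℂ = ⟪x j, x i⟫_ℂ} := by
      ext F
      simp
    rw [h1]
    refine IsGδ.iInter fun i => IsGδ.iInter fun j => ?_
    refine gdelta_lim (fun _ (F : W x) => ⟪x j, F.1 0 (x i)⟫_ℂ) _ _ (fun n => ev_cont hx 0 _ _)
      continuous_const (fun F => tendsto_const_nhds)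
  · exact IsGδ.iInter fun m => IsGδ.iInter fun n => IsGδ.iInter fun i => IsGδ.iInter fun j =>
      gdelta_law hx _ _ _ _

theorem SG_baire {x : ℕ → H} (hx : DenseRange x) : BaireSpace (SG x) := by
  have h0 := W_complete hx
  have h1 : IsCompletelyPseudoMetrizableSpace (closure (SG x)) :=
    isClosed_closure.isCompletelyPseudoMetrizableSpace
  have h2 : BaireSpace (closure (SG x)) := inferInstance
  have h3 : BaireSpace ((↑) ⁻¹' (SG x) : Set (closure (SG x))) :=
    ((SG_gdelta hx).preimage continuous_subtype_val).baireSpace_of_dense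
    (by simp [Subtype.dense_iff, inter_eq_right.mpr subset_closure])
  have h_homeo : Homeomorph ((↑) ⁻¹' (SG x) : Set (closure (SG x))) (SG x) :=
    ⟨⟨fun z => ⟨z, z.2⟩, fun z => ⟨⟨z, subset_closure z.2⟩, z.2⟩, by grind, by grind⟩,
      by fun_prop, by fun_prop⟩
  exact h_homeo.baireSpace

end Pool.Agent.H125B
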