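import Pool.Agent.H125B.GD

open Filter Topology Set TopologicalSpace
open scoped NNReal InnerProductSpace

namespace Pool.Agent.H125B

universe u

variable {H : Type u} [NormedAddCommGroup H] [InnerProductSpace ℂ H]

theorem CSG.ext' {T S : CSG H} (h : T.T = S.T) : T = S := by
  cases T
  cases S
  simp only at h
  subst h
  rfl

/-- a semigroup as a point of the ambient space -/
noncomputable def toW (x : ℕ → H) (T : CSG H) : W x :=
  ⟨T.T, T.contr', fun i _ => continuous_const.inner (T.cont' (x i))⟩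

theorem toW_inj (x : ℕ → H) : Function.Injective (toW x) := by
  intro T S h
  exact CSG.ext' (congrArg Subtype.val h)

/-- restriction of a matrix coefficient to `[0, n]` -/
noncomputable def rr (x : ℕ → H) (i j n : ℕ) (T : CSG H) : C(Icc (0 : ℝ≥0) (n : ℝ≥0), ℂ) :=
  (Phi x (toW x T) (i, j)).restrict (Icc (0 : ℝ≥0) (n : ℝ≥0))

theorem supDiff_eq (x : ℕ → H) (T S : CSG H) (i j n : ℕ) :
    supDiff x T S i j n = dist (rr x i j n T) (rr x i j n S) := by
  rw [dist_eq_norm, ContinuousMap.norm_eq_iSup_norm]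
  unfold supDiff
  congr 1
  funext t
  congr 1
  show _ = ⟪x j, T.T t (x i)⟫_ℂ - ⟪x j, S.T t (x i)⟫_ℂ
  rw [← inner_sub_right]
  rfl

theorem supDiff_nonneg (x : ℕ → H) (T S : CSG H) (i j n : ℕ) : 0 ≤ supDiff x T S i j n := by
  rw [supDiff_eq]
  exact dist_nonneg

theorem supDiff_le (x : ℕ → H) (T S : CSG H) (i j n : ℕ) :
    supDiff x T S i j n ≤ 2 * (‖x i‖ * ‖x j‖) := by
  unfold supDiff
  have : Nonempty (Icc (0 : ℝ≥0) (n : ℝ≥0)) := ⟨⟨0, le_rfl, zero_le⟩⟩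
  refine ciSup_le fun t => ?_
  have h1 : ‖(T.T t - S.T t) (x i)‖ ≤ 2 * ‖x i‖ := by
    have h2 : ‖T.T t - S.T t‖ ≤ 2 := by
      calc ‖T.T t - S.T t‖ ≤ ‖T.T t‖ + ‖S.T t‖ := norm_sub_le _ _
        _ ≤ 1 + 1 := add_le_add (T.contr' _) (S.contr' _)
        _ = 2 := by norm_num
    exact ((T.T t - S.T t).le_opNorm _).trans (by gcongr)
  calc ‖⟪x j, (T.T t - S.T t) (x i)⟫_ℂ‖ ≤ ‖x j‖ * ‖(T.T t - S.T t) (x i)‖ := norm_inner_le_norm _ _
    _ ≤ ‖x j‖ * (2 * ‖x i‖) := by gcongr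
    _ = 2 * (‖x i‖ * ‖x j‖) := by ring

/-- the weights -/
noncomputable def wt (p : ℕ × ℕ × ℕ) : ℝ := (2 : ℝ)⁻¹ ^ ((p.1 + 1) + (p.2.1 + 1) + (p.2.2 + 1))

theorem wt_pos (p : ℕ × ℕ × ℕ) : 0 < wt p := by unfold wt; positivity

theorem wt_summable : Summable wt := by
  have h0 : Summable fun n : ℕ => (2 : ℝ)⁻¹ ^ (n + 1) := by
    have := (summable_geometric_of_lt_one (r := (2:ℝ)⁻¹) (by norm_num) (by norm_num))
    exact (summable_nat_add_iff 1).2 this
  have h1 := h0.mul_of_nonneg h0 (fun n => by positivity) (fun n => by positivity)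
  have h2 := h0.mul_of_nonneg h1 (fun n => by positivity) (fun n => by positivity)
  refine h2.congr fun p => ?_
  unfold wt
  rw [pow_add, pow_add]
  ring

/-- one term of the distance -/
noncomputable def tm (x : ℕ → H) (T S : CSG H) (p : ℕ × ℕ × ℕ) : ℝ :=
  wt p * (supDiff x T S p.1 p.2.1 (p.2.2 + 1) / (‖x p.1‖ * ‖x p.2.1‖))

theorem cdist_eq (x : ℕ → H) (T S : CSG H) : cdist x T S = ∑' p, tm x T S p := rfl

theorem tm_nonneg (x : ℕ → H) (T S : CSG H) (p : ℕ × ℕ × ℕ) : 0 ≤ tm x T S p := by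
  unfold tm
  have := supDiff_nonneg x T S p.1 p.2.1 (p.2.2 + 1)
  have := wt_pos p
  positivity

theorem tm_le {x : ℕ → H} (hx0 : ∀ i, x i ≠ 0) (T S : CSG H) (p : ℕ × ℕ × ℕ) :
    tm x T S p ≤ 2 * wt p := by
  unfold tm
  have h1 : 0 < ‖x p.1‖ * ‖x p.2.1‖ := mul_pos (norm_pos_iff.2 (hx0 _)) (norm_pos_iff.2 (hx0 _))
  have h2 : supDiff x T S p.1 p.2.1 (p.2.2 + 1) / (‖x p.1‖ * ‖x p.2.1‖) ≤ 2 := by
    rw [div_le_iff₀ h1]
    exact supDiff_le _ _ _ _ _ _
  calc wt p * (supDiff x T S p.1 p.2.1 (p.2.2 + 1) / (‖x p.1‖ * ‖x p.2.1‖)) ≤ wt p * 2 :=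
        mul_le_mul_of_nonneg_left h2 (wt_pos p).le
    _ = 2 * wt p := mul_comm _ _

theorem tm_summable {x : ℕ → H} (hx0 : ∀ i, x i ≠ 0) (T S : CSG H) : Summable (tm x T S) :=
  Summable.of_nonneg_of_le (tm_nonneg x T S) (tm_le hx0 T S) (wt_summable.mul_left 2)

theorem tm_le_cdist {x : ℕ → H} (hx0 : ∀ i, x i ≠ 0) (T S : CSG H) (p : ℕ × ℕ × ℕ) :
    tm x T S p ≤ cdist x T S :=
  (tm_summable hx0 T S).le_tsum p fun q _ => tm_nonneg x T S q

theorem eq_of_cdist {x : ℕ → H} (hx0 : ∀ i, x i ≠ 0) (hx : DenseRange x) {T S : CSG H}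
    (h : cdist x T S = 0) : T = S := by
  apply CSG.ext'
  funext t
  apply ext_coeff hx
  intro i j
  obtain ⟨n, hn⟩ := exists_nat_ge t
  have h1 : tm x T S (i, j, n) ≤ 0 := h ▸ tm_le_cdist hx0 T S (i, j, n)
  have h2 : tm x T S (i, j, n) = 0 := le_antisymm h1 (tm_nonneg _ _ _ _)
  unfold tm at h2
  have h3 : 0 < ‖x i‖ * ‖x j‖ := mul_pos (norm_pos_iff.2 (hx0 _)) (norm_pos_iff.2 (hx0 _))
  rcases mul_eq_zero.1 h2 with h4 | h4
  · exact absurd h4 (wt_pos _).ne'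
  · rw [div_eq_zero_iff] at h4
    rcases h4 with h4 | h4
    · rw [supDiff_eq] at h4
      have h5 := eq_of_dist_eq_zero h4
      have h6 := DFunLike.congr_fun h5 ⟨t, zero_le, hn.trans (by exact_mod_cast Nat.le_succ n)⟩
      exact h6
    · exact absurd h4 h3.ne'

/-- the metric space of contraction semigroups -/
@[instance_reducible]
noncomputable def metCSG (x : ℕ → H) (hx0 : ∀ i, x i ≠ 0) (hx : DenseRange x) :
    MetricSpace (CSG H) where
  dist := cdist x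
  dist_self T := by
    rw [cdist_eq]
    have : ∀ p, tm x T T p = 0 := fun p => by
      unfold tm
      rw [supDiff_eq, dist_self, zero_div, mul_zero]
    simp [this]
  dist_comm T S := by
    rw [cdist_eq, cdist_eq]
    congr 1
    funext p
    unfold tm
    rw [supDiff_eq, supDiff_eq, dist_comm]
  dist_triangle T S R := by
    rw [cdist_eq, cdist_eq, cdist_eq, ← (tm_summable hx0 T S).tsum_add (tm_summable hx0 S R)]
    refine (tm_summable hx0 T R).tsum_le_tsum ?_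
      ((tm_summable hx0 T S).add (tm_summable hx0 S R))
    intro p
    unfold tm
    rw [← mul_add, ← add_div]
    have := wt_pos p
    gcongr
    rw [supDiff_eq, supDiff_eq, supDiff_eq]
    exact dist_triangle _ _ _
  eq_of_dist_eq_zero h := eq_of_cdist hx0 hx h

end Pool.Agent.H125B
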